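import Pool.Agent.EgO.Fin

/-!
# Alternating composition factors of groups whose classes have distinct sizes (MP_3a125c_al)
-/

set_option autoImplicit false

namespace Pool.Agent.Results.MP_3a125c_al.AltFactors

open Pool.Agent.EgO

theorem result (G : Type) [Group G] [Finite G] (hG : Ah G) (n : ℕ) (h : AltFactor G n)
    (hn : n = 27 ∨ n = 28 ∨ n = 29 ∨ 31 ≤ n) :
    (∃ p, p.Prime ∧ p ∣ Nat.card G ∧ n < p) ∧
    (2 ^ 17 ≤ n → 2 ^ 2 ^ (Nat.sqrt (n / Nat.log 2 n) / 8) < (Nat.card G).primeFactors.card) :=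
  ⟨main_sec hG (by omega) h (exists_m hn),
    fun hn' => main_count hG (by omega) (by positivity) h (exists_m_count hn')⟩

end Pool.Agent.Results.MP_3a125c_al.AltFactors
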