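import Pool.Agent.Fah.E5

/-!
# An explicit bound for the groups with conjugacy classes of distinct sizes (MP_3a125c_al)
-/

set_option autoImplicit false

namespace Pool.Agent.Results.MP_3a125c_al.ExplicitBound

/-- Distinct conjugacy classes of `G` have distinct cardinalities. -/
def Ah (G : Type) [Group G] : Prop := ∀ C D : ConjClasses G, Nat.card C.carrier = Nat.card D.carrier → C = D

/-- Every nonabelian simple section `S / K` with `K ≤ S ≤ L`, `K` and `L` normal in `G`, `S` normal in `L` (that is, every nonabelian composition factor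
of `G`) has order at most `B` or is an alternating group. -/
structure Bd (B : ℕ) (G : Type) [Group G] : Prop where
  simple : ∀ (K L S : Subgroup G) [K.Normal] [L.Normal], K ≤ S → S ≤ L → (∀ l ∈ L, ∀ s ∈ S, l * s * l⁻¹ ∈ S) →
    IsSimpleGroup (S ⧸ K.subgroupOf S) → (∃ s t : S ⧸ K.subgroupOf S, s * t ≠ t * s) →
    Nat.card (S ⧸ K.subgroupOf S) ≤ B ∨ ∃ n, Nonempty (S ⧸ K.subgroupOf S ≃* alternatingGroup (Fin n))

/-- If distinct conjugacy classes of the finite group `G` have distinct sizes and `Bd B G`, then the order of `G` is at most the number obtained from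
`B + 100` by applying the map `x ↦ 2 ^ x` thirty-two times. -/
theorem result (B : ℕ) (G : Type) [Group G] [Finite G] (hG : Ah G) (hB : Bd B G) :
    Nat.card G ≤ (fun x : ℕ => 2 ^ x)^[32] (B + 100) :=
  Pool.Agent.Fah.explicit B (T := fun k => (fun x : ℕ => 2 ^ x)^[k] (B + 100)) rfl
    (fun k => Function.iterate_succ_apply' _ k _) hG hB.simple

end Pool.Agent.Results.MP_3a125c_al.ExplicitBound
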