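import Pool.Agent.NbS.Psd

/-!
# MP_3a125c_al: groups with conjugacy classes of distinct sizes, nilpotent by symmetric

Let `G` be a finite group whose distinct conjugacy classes have distinct sizes, and `N` a normal subgroup.

* If `N` is nilpotent, or `|N|` is not a sum of distinct proper divisors of `|N|`, two self-centralizing elements
  of `G/N` of the same order are conjugate.
* If `N` is nilpotent and `G/N` is a symmetric group, then `G` is trivial or isomorphic to `S_3`.
* If `|N|` is not a sum of distinct proper divisors of `|N|`, then `G/N` is not isomorphic to `S_n`, for all `n ≥ 6` with twelve exceptions.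
-/

namespace Pool.Agent.Results.MP_3a125c_al.NilpotentBySymmetric

theorem result (G : Type) [Group G] [Finite G]
    (hG : ∀ C D : ConjClasses G, Nat.card C.carrier = Nat.card D.carrier → C = D) (N : Subgroup G) [N.Normal] :
    (Group.IsNilpotent N ∨ ¬ Nat.Pseudoperfect (Nat.card N) →
      ∀ s t : G ⧸ N, Subgroup.centralizer {s} = Subgroup.zpowers s →
        Subgroup.centralizer {t} = Subgroup.zpowers t → orderOf s = orderOf t → IsConj s t) ∧
    (Group.IsNilpotent N → ∀ n : ℕ, Nonempty (G ⧸ N ≃* Equiv.Perm (Fin n)) →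
      Nat.card G = 1 ∨ Nonempty (G ≃* Equiv.Perm (Fin 3))) ∧
    (¬ Nat.Pseudoperfect (Nat.card N) → ∀ n : ℕ, 6 ≤ n → n ∉ [7, 8, 9, 10, 12, 14, 15, 16, 20, 21, 27, 33] →
      IsEmpty (G ⧸ N ≃* Equiv.Perm (Fin n))) :=
  ⟨fun h s t hs ht hst => Pool.Agent.NbS.selfc' hG N h s t hs ht hst,
    fun h n ⟨e⟩ => Pool.Agent.NbS.main hG N (hN := h) n e,
    fun h n h6 hn => Pool.Agent.NbS.no_sym hG N h n h6 hn⟩

end Pool.Agent.Results.MP_3a125c_al.NilpotentBySymmetric
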