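import Pool.Agent.NbT.Fin

/-!
# MP_3a125c_al: groups with conjugacy classes of distinct sizes, chief factors with a symmetric group

Let `G` be a finite group whose distinct conjugacy classes have distinct sizes, and let `K ≤ C` and `L` be normal
subgroups with `[C, K] ≤ L` and `G/C` isomorphic to a symmetric group `S_n`. Then all prime divisors of
`|K : K ∩ L|` are `2` or `3`, and `3` occurs only for fifteen degrees `n`.
-/

namespace Pool.Agent.Results.MP_3a125c_al.SymmetricSections

theorem result (G : Type) [Group G] [Finite G]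
    (hG : ∀ A B : ConjClasses G, Nat.card A.carrier = Nat.card B.carrier → A = B)
    (C K L : Subgroup G) [C.Normal] [K.Normal] [L.Normal] (hK : K ≤ C) (hc : ⁅C, K⁆ ≤ L)
    (n : ℕ) (hn : Nonempty (G ⧸ C ≃* Equiv.Perm (Fin n))) (p : ℕ) (hp : p.Prime) (hd : p ∣ L.relIndex K) :
    p = 2 ∨ (p = 3 ∧ n ∈ [2, 3, 4, 6, 7, 9, 10, 13, 14, 15, 16, 19, 20, 22, 31]) :=
  hn.elim fun e => Pool.Agent.NbT.mainA hG C K L hK hc n e p hp hd

end Pool.Agent.Results.MP_3a125c_al.SymmetricSections
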